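import Mathlib

set_option autoImplicit false

namespace Pool.Agent.helper21.Path

open Filter Topology Set

variable {ι : Type*}

theorem one_add_le_exp_rpow {x κ : ℝ} (hx : 0 ≤ x) (h0 : 0 < κ) (h1 : κ ≤ 1) :
    1 + x ≤ Real.exp (x ^ κ / κ) := by
  have h2 : (1 + x) ^ κ ≤ 1 + x ^ κ := by
    have := Real.rpow_add_le_add_rpow (p := κ) zero_le_one hx h0.le h1
    simpa using this
  have h3 : (1 + x) ^ κ ≤ Real.exp (x ^ κ) := h2.trans (by
    have := Real.add_one_le_exp (x ^ κ)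
    linarith)
  have h4 : ((1 + x) ^ κ) ^ κ⁻¹ ≤ (Real.exp (x ^ κ)) ^ κ⁻¹ :=
    Real.rpow_le_rpow (by positivity) h3 (by positivity)
  rw [← Real.rpow_mul (by positivity), mul_inv_cancel₀ h0.ne', Real.rpow_one, ← Real.exp_mul] at h4
  rwa [div_eq_mul_inv]

/-- The product `∏ (1 - z / a i)`. -/
noncomputable def canon (a : ι → ℂ) (z : ℂ) : ℂ := ∏' i, (1 + (- z / a i))

theorem norm_factor (a : ι → ℂ) (z : ℂ) (i : ι) : ‖- z / a i‖ = ‖z‖ * ‖a i‖⁻¹ := by
  rw [norm_div, norm_neg, div_eq_mul_inv]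

theorem multipliable_canon {a : ι → ℂ} (hs : Summable fun i => ‖a i‖⁻¹) (z : ℂ) :
    Multipliable fun i => (1 + (- z / a i)) := by
  apply multipliable_one_add_of_summable
  simp only [norm_factor]
  exact hs.mul_left _

theorem differentiable_canon {a : ι → ℂ} (hs : Summable fun i => ‖a i‖⁻¹) :
    Differentiable ℂ (canon a) := by
  intro z
  have h1 : HasProdLocallyUniformlyOn (fun i z => 1 + (- z / a i)) (fun z => ∏' i, (1 + (- z / a i)))
      (Metric.ball (0 : ℂ) (‖z‖ + 1)) := by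
    refine Summable.hasProdLocallyUniformlyOn_one_add Metric.isOpen_ball
      (hs.mul_left (‖z‖ + 1)) (Eventually.of_forall fun i x hx => ?_) fun i => ?_
    · rw [norm_factor]
      exact mul_le_mul_of_nonneg_right (by simpa using (Metric.mem_ball.mp hx).le) (by positivity)
    · fun_prop
  have h2 : DifferentiableOn ℂ (canon a) (Metric.ball (0 : ℂ) (‖z‖ + 1)) := by
    refine TendstoLocallyUniformlyOn.differentiableOn h1 (Eventually.of_forall fun s => ?_)
      Metric.isOpen_ball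
    fun_prop
  exact h2.differentiableAt (Metric.isOpen_ball.mem_nhds (by simp))

theorem norm_canon_le {a : ι → ℂ} (hs : Summable fun i => ‖a i‖⁻¹) {κ : ℝ} (h0 : 0 < κ)
    (h1 : κ ≤ 1) (hκ : Summable fun i => (‖a i‖⁻¹) ^ κ) (z : ℂ) :
    ‖canon a z‖ ≤ Real.exp ((∑' i, (‖a i‖⁻¹) ^ κ) / κ * ‖z‖ ^ κ) := by
  have h2 : HasProd (fun i => ‖1 + (- z / a i)‖) ‖canon a z‖ :=
    ((multipliable_canon hs z).hasProd).norm
  refine hasProd_le_of_prod_le h2 fun s => ?_
  calc ∏ i ∈ s, ‖1 + - z / a i‖ ≤ ∏ i ∈ s, Real.exp ((‖z‖ * ‖a i‖⁻¹) ^ κ / κ) := by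
        refine Finset.prod_le_prod (fun i _ => norm_nonneg _) fun i _ => ?_
        refine (norm_add_le _ _).trans ?_
        rw [norm_factor, norm_one]
        exact one_add_le_exp_rpow (by positivity) h0 h1
    _ = Real.exp (∑ i ∈ s, (‖z‖ * ‖a i‖⁻¹) ^ κ / κ) := (Real.exp_sum _ _).symm
    _ ≤ _ := by
        refine Real.exp_le_exp.mpr ?_
        have h3 : ∑ i ∈ s, (‖z‖ * ‖a i‖⁻¹) ^ κ / κ = (∑ i ∈ s, (‖a i‖⁻¹) ^ κ) / κ * ‖z‖ ^ κ := by
          rw [Finset.sum_div, Finset.sum_mul]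
          refine Finset.sum_congr rfl fun i _ => ?_
          rw [Real.mul_rpow (norm_nonneg _) (by positivity)]
          ring
        rw [h3]
        have h4 : ∑ i ∈ s, (‖a i‖⁻¹) ^ κ ≤ ∑' i, (‖a i‖⁻¹) ^ κ :=
          hκ.sum_le_tsum s fun i _ => by positivity
        gcongr

theorem canon_ne_zero {a : ι → ℂ} (ha : ∀ i, a i ≠ 0) (hs : Summable fun i => ‖a i‖⁻¹) {z : ℂ}
    (hz : ∀ i, z ≠ a i) : canon a z ≠ 0 := by
  refine tprod_one_add_ne_zero_of_summable (fun i h => hz i ?_) ?_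
  · have := ha i
    field_simp at h
    linear_combination -h
  · simp only [norm_factor]
    exact hs.mul_left _

/-- splitting off a finite set of factors -/
theorem canon_split {a : ι → ℂ} (hs : Summable fun i => ‖a i‖⁻¹) (s : Set ι) (z : ℂ) :
    canon a z = canon (fun i : s => a i) z * canon (fun i : ↥sᶜ => a i) z := by
  have h1 : Summable fun i : s => ‖a i‖⁻¹ := hs.subtype s
  have h2 : Summable fun i : ↥sᶜ => ‖a i‖⁻¹ := hs.subtype sᶜ
  exact (Multipliable.tprod_mul_tprod_compl (f := fun i => (1 + (- z / a i)))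
    (multipliable_canon h1 z) (multipliable_canon h2 z)).symm

/-- the order of vanishing -/
theorem le_order_canon {a : ι → ℂ} (ha : ∀ i, a i ≠ 0) (hs : Summable fun i => ‖a i‖⁻¹) {b : ℂ}
    {n : ℕ} {s : Finset ι} (hb : ∀ i ∈ s, a i = b) (hn : n ≤ s.card) :
    (n : ℕ∞) ≤ analyticOrderAt (canon a) b := by
  have h1 : canon a = fun z => (∏ i ∈ s, (1 + (- z / a i))) *
      canon (fun i : ↥((s : Set ι)ᶜ) => a i) z := by
    funext z
    rw [canon_split hs (s : Set ι) z]
    congr 1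
    exact Finset.tprod_subtype s (fun i => (1 + (- z / a i)))
  have h2 : Differentiable ℂ (canon (fun i : ↥((s : Set ι)ᶜ) => a i)) :=
    differentiable_canon (hs.subtype _)
  have h3 : (fun z => ∏ i ∈ s, (1 + (- z / a i))) = fun z => (1 + (-z / b)) ^ s.card := by
    funext z
    rw [Finset.prod_congr rfl (g := fun _ => (1 + (-z / b))) fun i hi => by rw [hb i hi],
      Finset.prod_const]
  rcases s.eq_empty_or_nonempty with rfl | ⟨i0, hi0⟩
  · simp at hn
    simp [hn]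
  have hb0 : b ≠ 0 := hb i0 hi0 ▸ ha i0
  have h4 : AnalyticAt ℂ (fun z : ℂ => 1 + (-z / b)) b := by fun_prop
  have h5 : (1 : ℕ∞) ≤ analyticOrderAt (fun z : ℂ => 1 + (-z / b)) b := by
    rw [Order.one_le_iff_pos, pos_iff_ne_zero, Ne, h4.analyticOrderAt_eq_zero]
    simp [neg_div, div_self hb0]
  have h6 : AnalyticAt ℂ (canon (fun i : ↥((s : Set ι)ᶜ) => a i)) b :=
    h2.analyticAt b
  rw [h1]
  have h7 : (fun z => (∏ i ∈ s, (1 + (- z / a i))) *
      canon (fun i : ↥((s : Set ι)ᶜ) => a i) z) =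
      (fun z => (1 + (-z / b))) ^ s.card * canon (fun i : ↥((s : Set ι)ᶜ) => a i) := by
    funext z
    simp only [Pi.mul_apply, Pi.pow_apply]
    rw [← congrFun h3 z]
  rw [h7, analyticOrderAt_mul (h4.pow _) h6, analyticOrderAt_pow h4]
  calc (n : ℕ∞) ≤ (s.card : ℕ∞) := by exact_mod_cast hn
    _ = s.card • (1 : ℕ∞) := by simp
    _ ≤ s.card • analyticOrderAt (fun z : ℂ => 1 + (-z / b)) b := nsmul_le_nsmul_right h5 _
    _ ≤ _ := le_self_add

theorem summable_of_count {x : ι → ℝ} {C k κ : ℝ} (hκ : 0 < κ) (hk : k < κ)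
    (hc : ∀ r : ℝ, 1 ≤ r → ∀ s : Finset ι, (∀ i ∈ s, x i < r) → (s.card : ℝ) ≤ C * r ^ k) :
    Summable fun i => (x i)⁻¹ ^ κ := by
  classical
  have hC : 0 ≤ C := by
    have := hc 1 le_rfl ∅ (by simp)
    simpa using this
  set q : ℝ := (2:ℝ) ^ (k - κ) with hq
  have hq0 : 0 < q := by positivity
  have hq1 : q < 1 := Real.rpow_lt_one_of_one_lt_of_neg (by norm_num) (by linarith)
  let y : ι → ℝ := fun i => max (x i) 1
  let m : ι → ℕ := fun i => Nat.log 2 ⌊y i⌋₊
  have hy1 : ∀ i, 1 ≤ y i := fun i => le_max_right _ _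
  have hfl : ∀ i, ⌊y i⌋₊ ≠ 0 := fun i => by
    have := Nat.floor_pos.mpr (hy1 i)
    omega
  have hm1 : ∀ i, (2:ℝ) ^ (m i) ≤ y i := fun i => by
    have h1 : 2 ^ (m i) ≤ ⌊y i⌋₊ := Nat.pow_log_le_self 2 (hfl i)
    have h2 : ((⌊y i⌋₊ : ℕ) : ℝ) ≤ y i := Nat.floor_le (by linarith [hy1 i])
    have h3 : ((2 ^ (m i) : ℕ) : ℝ) ≤ (⌊y i⌋₊ : ℕ) := by exact_mod_cast h1
    push_cast at h3
    linarith
  have hm2 : ∀ i, y i < (2:ℝ) ^ (m i + 1) := fun i => by
    have h1 : ⌊y i⌋₊ < 2 ^ (m i + 1) := Nat.lt_pow_succ_log_self (by norm_num) _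
    have h2 : y i < (⌊y i⌋₊ : ℕ) + 1 := Nat.lt_floor_add_one _
    have h3 : (((⌊y i⌋₊ + 1 : ℕ)) : ℝ) ≤ ((2 ^ (m i + 1) : ℕ) : ℝ) := by exact_mod_cast h1
    push_cast at h3
    linarith
  have h1 : Summable fun i => (y i)⁻¹ ^ κ := by
    have hg : Summable fun n : ℕ => C * 2 ^ k * q ^ n :=
      (summable_geometric_of_lt_one hq0.le hq1).mul_left _
    refine summable_of_sum_le (c := ∑' n : ℕ, C * 2 ^ k * q ^ n)
      (fun i => Real.rpow_nonneg (inv_nonneg.mpr (by linarith [hy1 i])) _) fun u => ?_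
    calc ∑ i ∈ u, (y i)⁻¹ ^ κ ≤ ∑ i ∈ u, (((2:ℝ) ^ (m i))⁻¹) ^ κ := by
          refine Finset.sum_le_sum fun i _ => ?_
          refine Real.rpow_le_rpow (inv_nonneg.mpr (by linarith [hy1 i])) ?_ hκ.le
          exact inv_anti₀ (by positivity) (hm1 i)
      _ = ∑ n ∈ u.image m, ∑ i ∈ u with m i = n, (((2:ℝ) ^ (m i))⁻¹) ^ κ :=
          (Finset.sum_fiberwise_of_maps_to (fun i hi => Finset.mem_image_of_mem m hi) _).symm
      _ = ∑ n ∈ u.image m, ((u.filter (fun i => m i = n)).card : ℝ) * (((2:ℝ) ^ n)⁻¹) ^ κ := by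
          refine Finset.sum_congr rfl fun n _ => ?_
          rw [Finset.sum_congr rfl (g := fun _ => (((2:ℝ) ^ n)⁻¹) ^ κ) fun i hi => by
            rw [(Finset.mem_filter.mp hi).2], Finset.sum_const, nsmul_eq_mul]
      _ ≤ ∑ n ∈ u.image m, C * 2 ^ k * q ^ n := by
          refine Finset.sum_le_sum fun n _ => ?_
          have h2 : ((u.filter (fun i => m i = n)).card : ℝ) ≤ C * ((2:ℝ) ^ (n + 1)) ^ k := by
            refine hc _ (one_le_pow₀ (by norm_num)) _ fun i hi => ?_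
            have h3 := hm2 i
            rw [(Finset.mem_filter.mp hi).2] at h3
            exact (le_max_left _ _).trans_lt h3
          have h4 : ((2:ℝ) ^ (n + 1)) ^ k * (((2:ℝ) ^ n)⁻¹) ^ κ = 2 ^ k * q ^ n := by
            rw [hq, ← Real.rpow_natCast, ← Real.rpow_natCast, ← Real.rpow_natCast,
              ← Real.rpow_neg (by norm_num), ← Real.rpow_mul (by norm_num),
              ← Real.rpow_mul (by norm_num), ← Real.rpow_mul (by norm_num),
              ← Real.rpow_add (by norm_num), ← Real.rpow_add (by norm_num)]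
            congr 1
            push_cast
            ring
          calc ((u.filter (fun i => m i = n)).card : ℝ) * (((2:ℝ) ^ n)⁻¹) ^ κ
              ≤ (C * ((2:ℝ) ^ (n + 1)) ^ k) * (((2:ℝ) ^ n)⁻¹) ^ κ :=
                mul_le_mul_of_nonneg_right h2 (by positivity)
            _ = C * (2 ^ k * q ^ n) := by rw [mul_assoc, h4]
            _ = C * 2 ^ k * q ^ n := by ring
      _ ≤ ∑' n : ℕ, C * 2 ^ k * q ^ n :=
          hg.sum_le_tsum _ fun n _ => by positivity
  have h2 : {i | x i < 1}.Finite := by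
    by_contra hinf
    obtain ⟨n, hn⟩ := exists_nat_gt C
    obtain ⟨t, ht, htc⟩ := Set.Infinite.exists_subset_card_eq hinf n
    have := hc 1 le_rfl t fun i hi => ht hi
    rw [htc] at this
    simp at this
    linarith
  refine h1.congr_cofinite ?_
  filter_upwards [h2.compl_mem_cofinite] with i hi
  have : 1 ≤ x i := not_lt.mp hi
  simp only [y, max_eq_left this]


/-- the number of poles of `f` at `z` -/
noncomputable def poles (f : ℂ → ℂ) (z : ℂ) : ℕ :=
  ((-(MeromorphicOn.divisor f Set.univ z)) ⊔ 0).toNat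

theorem poles_cast (f : ℂ → ℂ) (z : ℂ) :
    ((poles f z : ℕ) : ℝ) = (((-(MeromorphicOn.divisor f Set.univ z)) ⊔ 0 : ℤ) : ℝ) := by
  have h : ((poles f z : ℕ) : ℤ) = (-(MeromorphicOn.divisor f Set.univ z)) ⊔ 0 :=
    Int.toNat_of_nonneg (le_max_right _ _)
  rw [← h]
  simp

theorem sum_poles_le (f : ℂ → ℂ) (r : ℝ) (T : Finset ℂ) (hT : ∀ z ∈ T, ‖z‖ < r) :
    ∑ z ∈ T, (poles f z : ℝ) ≤ ∑ᶠ (z : ℂ) (_ : z ∈ Metric.ball (0 : ℂ) r),
          (((-(MeromorphicOn.divisor f Set.univ z)) ⊔ 0 : ℤ) : ℝ) := by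
  classical
  have h1 : (∑ᶠ (z : ℂ) (_ : z ∈ Metric.ball (0 : ℂ) r),
      (((-(MeromorphicOn.divisor f Set.univ z)) ⊔ 0 : ℤ) : ℝ)) =
      ∑ᶠ (z : ℂ) (_ : z ∈ Metric.ball (0 : ℂ) r), (poles f z : ℝ) := by
    simp only [poles_cast]
  rw [h1]
  have h2 : (Metric.ball (0 : ℂ) r ∩ Function.support fun z => (poles f z : ℝ)).Finite := by
    have h3 := (Function.locallyFinsupp.locallyFiniteSupport
      (MeromorphicOn.divisor f (Set.univ : Set ℂ))).finite_inter_support_of_isCompact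
      (isCompact_closedBall (0 : ℂ) r)
    refine h3.subset fun z hz => ⟨Metric.ball_subset_closedBall hz.1, ?_⟩
    intro h0
    have h0' : (MeromorphicOn.divisor f Set.univ) z = 0 := h0
    apply hz.2
    simp only [poles]
    rw [h0']
    simp
  rw [finsum_mem_eq_sum _ h2]
  have h4 : ∑ z ∈ T, (poles f z : ℝ) = ∑ z ∈ T with poles f z ≠ 0, (poles f z : ℝ) := by
    rw [Finset.sum_filter]
    refine Finset.sum_congr rfl fun z _ => ?_
    split_ifs with h
    · rfl
    · push Not at h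
      simp [h]
  rw [h4]
  refine Finset.sum_le_sum_of_subset_of_nonneg (fun z hz => ?_) fun z _ _ => by positivity
  rw [Finset.mem_filter] at hz
  rw [Set.Finite.mem_toFinset]
  refine ⟨by simpa using hT z hz.1, ?_⟩
  rw [Function.mem_support]
  exact_mod_cast hz.2


/-- index set of the nonzero poles, with multiplicities -/
abbrev PoleIdx (f : ℂ → ℂ) : Type := Σ b : {b : ℂ // b ≠ 0}, Fin (poles f b)

theorem card_poleIdx_le (f : ℂ → ℂ) (r : ℝ) (s : Finset (PoleIdx f))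
    (hs : ∀ i ∈ s, ‖(i.1 : ℂ)‖ < r) :
    (s.card : ℝ) ≤ ∑ᶠ (z : ℂ) (_ : z ∈ Metric.ball (0 : ℂ) r),
          (((-(MeromorphicOn.divisor f Set.univ z)) ⊔ 0 : ℤ) : ℝ) := by
  classical
  have h1 : s ⊆ (s.image Sigma.fst).sigma fun _ => Finset.univ := fun i hi => by
    simp only [Finset.mem_sigma, Finset.mem_univ, and_true]
    exact Finset.mem_image_of_mem _ hi
  have h2 : s.card ≤ ∑ b ∈ s.image Sigma.fst, poles f b := by
    refine (Finset.card_le_card h1).trans ?_
    rw [Finset.card_sigma]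
    simp
  have h3 : ∑ z ∈ (s.image Sigma.fst).map (Function.Embedding.subtype _), (poles f z : ℝ) =
      ∑ b ∈ s.image Sigma.fst, (poles f b : ℝ) := by
    rw [Finset.sum_map]
    rfl
  refine le_trans ?_ (sum_poles_le f r ((s.image Sigma.fst).map (Function.Embedding.subtype _)) ?_)
  · rw [h3]
    exact_mod_cast h2
  · intro z hz
    simp only [Finset.mem_map, Finset.mem_image, Function.Embedding.coe_subtype] at hz
    obtain ⟨b, ⟨i, hi, rfl⟩, rfl⟩ := hz
    exact hs i hi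

theorem exists_canonical (f : ℂ → ℂ) {C k : ℝ} (hk : k < 1 / 2)
    (h : ∀ r : ℝ, 1 ≤ r → (∑ᶠ (z : ℂ) (_ : z ∈ Metric.ball (0 : ℂ) r),
          (((-(MeromorphicOn.divisor f Set.univ z)) ⊔ 0 : ℤ) : ℝ)) ≤ C * r ^ k) :
    ∃ (g : ℂ → ℂ) (κ A : ℝ), Differentiable ℂ g ∧ 0 < κ ∧ κ < 1 / 2 ∧ 0 ≤ A ∧ (∃ z, g z ≠ 0) ∧
      (∀ z, ‖g z‖ ≤ Real.exp (A * (1 + ‖z‖) ^ κ)) ∧
      ∀ z, (poles f z : ℕ∞) ≤ analyticOrderAt g z := by
  classical
  obtain ⟨κ, hκ1, hκ2⟩ : ∃ κ, max k 0 < κ ∧ κ < 1 / 2 :=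
    exists_between (max_lt hk (by norm_num))
  have hκ0 : 0 < κ := (le_max_right _ _).trans_lt hκ1
  have hkκ : k < κ := (le_max_left _ _).trans_lt hκ1
  let a : PoleIdx f → ℂ := fun i => i.1
  have ha : ∀ i, a i ≠ 0 := fun i => i.1.2
  have hc : ∀ r : ℝ, 1 ≤ r → ∀ s : Finset (PoleIdx f), (∀ i ∈ s, ‖a i‖ < r) →
      (s.card : ℝ) ≤ C * r ^ k := fun r hr s hs => (card_poleIdx_le f r s hs).trans (h r hr)
  have hsκ : Summable fun i => (‖a i‖)⁻¹ ^ κ := summable_of_count hκ0 hkκ hc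
  have hs1 : Summable fun i => ‖a i‖⁻¹ := by
    have := summable_of_count (κ := 1) one_pos (hkκ.trans (hκ2.trans (by norm_num))) hc
    simpa using this
  set S : ℝ := ∑' i, (‖a i‖⁻¹) ^ κ with hS
  have hS0 : 0 ≤ S := tsum_nonneg fun i => by positivity
  refine ⟨fun z => z ^ poles f 0 * canon a z, κ, (poles f 0 + S) / κ, ?_, hκ0, hκ2, by positivity,
    ?_, ?_, ?_⟩
  · exact (differentiable_id.pow _).mul (differentiable_canon hs1)
  · obtain ⟨t, ht, htf⟩ := (MeromorphicOn.divisor f (Set.univ : Set ℂ)).supportLocallyFiniteWithinDomain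
      0 (Set.mem_univ _)
    have h1 : (t ∩ ((t ∩ (MeromorphicOn.divisor f (Set.univ : Set ℂ)).support)ᶜ)) ∩ {0}ᶜ ∈
        𝓝[≠] (0 : ℂ) := by
      have h2 : ((t ∩ (MeromorphicOn.divisor f (Set.univ : Set ℂ)).support) \ {0})ᶜ ∈ 𝓝 (0 : ℂ) :=
        (htf.subset Set.sdiff_subset).isClosed.isOpen_compl.mem_nhds (by simp)
      filter_upwards [mem_nhdsWithin_of_mem_nhds ht, mem_nhdsWithin_of_mem_nhds h2,
        self_mem_nhdsWithin] with z hz1 hz2 hz3
      refine ⟨⟨hz1, fun h4 => hz2 ⟨h4, hz3⟩⟩, hz3⟩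
    obtain ⟨z, ⟨hz1, hz2⟩, hz3⟩ := Filter.nonempty_of_mem h1
    have hz0 : z ≠ 0 := hz3
    refine ⟨z, mul_ne_zero (pow_ne_zero _ hz0) (canon_ne_zero ha hs1 fun i hi => ?_)⟩
    have h5 : MeromorphicOn.divisor f (Set.univ : Set ℂ) z = 0 := by
      by_contra h6
      exact hz2 ⟨hz1, h6⟩
    have h6 : poles f z = 0 := by
      rw [poles, h5]; simp
    have h7 : poles f (i.1 : ℂ) = 0 := by
      have : (i.1 : ℂ) = z := hi.symm
      rw [this, h6]
    exact (h7 ▸ i.2 : Fin 0).elim0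
  · intro z
    have h1 : ‖z ^ poles f 0‖ ≤ Real.exp ((poles f 0) / κ * ‖z‖ ^ κ) := by
      rw [norm_pow]
      calc ‖z‖ ^ poles f 0 ≤ (Real.exp (‖z‖ ^ κ / κ)) ^ poles f 0 := by
            refine pow_le_pow_left₀ (norm_nonneg _) ?_ _
            have := one_add_le_exp_rpow (norm_nonneg z) hκ0 (by linarith)
            linarith
        _ = Real.exp ((poles f 0) / κ * ‖z‖ ^ κ) := by
            rw [← Real.exp_nat_mul]
            congr 1
            ring
    rw [norm_mul]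
    calc ‖z ^ poles f 0‖ * ‖canon a z‖ ≤ Real.exp ((poles f 0) / κ * ‖z‖ ^ κ) *
          Real.exp (S / κ * ‖z‖ ^ κ) := by
          gcongr
          exact norm_canon_le hs1 hκ0 (by linarith) hsκ z
      _ = Real.exp ((poles f 0 + S) / κ * ‖z‖ ^ κ) := by
          rw [← Real.exp_add]
          congr 1
          ring
      _ ≤ Real.exp ((poles f 0 + S) / κ * (1 + ‖z‖) ^ κ) := by
          gcongr
          linarith
  · intro z
    have h0 : AnalyticAt ℂ (fun z : ℂ => z ^ poles f 0) z := by fun_prop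
    have h1 : AnalyticAt ℂ (canon a) z := (differentiable_canon hs1).analyticAt z
    have h2 : analyticOrderAt (fun z => z ^ poles f 0 * canon a z) z =
        analyticOrderAt (fun z : ℂ => z ^ poles f 0) z + analyticOrderAt (canon a) z :=
      analyticOrderAt_mul h0 h1
    rw [h2]
    rcases eq_or_ne z 0 with rfl | hz
    · have h3 : analyticOrderAt (fun z : ℂ => z ^ poles f 0) 0 =
          poles f 0 • analyticOrderAt (fun z : ℂ => z) 0 :=
        analyticOrderAt_pow (f := fun z : ℂ => z) analyticAt_id _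
      have h4 : (1 : ℕ∞) ≤ analyticOrderAt (fun z : ℂ => z) 0 := by
        have h5 : AnalyticAt ℂ (fun z : ℂ => z) 0 := analyticAt_id
        rw [Order.one_le_iff_pos, pos_iff_ne_zero, Ne, h5.analyticOrderAt_eq_zero]
        simp
      calc (poles f 0 : ℕ∞) = poles f 0 • (1 : ℕ∞) := by simp
        _ ≤ poles f 0 • analyticOrderAt (fun z : ℂ => z) 0 := nsmul_le_nsmul_right h4 _
        _ = _ := h3.symm
        _ ≤ _ := le_self_add
    · refine le_trans ?_ le_add_self
      let e : Fin (poles f z) ↪ PoleIdx f :=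
        ⟨fun j => ⟨⟨z, hz⟩, j⟩, fun j j' h => by simpa using h⟩
      refine le_order_canon ha hs1 (s := Finset.univ.map e) ?_ ?_
      · intro i hi
        obtain ⟨j, -, rfl⟩ := Finset.mem_map.mp hi
        rfl
      · simp


open ValueDistribution in
theorem characteristic_le_of_differentiable {F : ℂ → ℂ} (hF : Differentiable ℂ F) {r B : ℝ}
    (hr : 0 ≤ r) (hB : ∀ z, ‖z‖ = r → Real.posLog ‖F z‖ ≤ B) :
    ValueDistribution.characteristic F ⊤ r ≤ B := by
  have hFa : AnalyticOnNhd ℂ F Set.univ := fun z _ => hF.analyticAt z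
  have h1 : logCounting F ⊤ r = 0 := by
    rw [logCounting_top]
    have h2 : (MeromorphicOn.divisor F Set.univ)⁻ = 0 :=
      negPart_eq_zero.mpr (MeromorphicOn.AnalyticOnNhd.divisor_nonneg hFa)
    rw [h2, map_zero]
    rfl
  have h3 : proximity F ⊤ r ≤ B := by
    rw [proximity_top]
    refine Real.circleAverage_mono_on_of_le_circle ?_ fun z hz => hB z ?_
    · exact MeromorphicOn.circleIntegrable_posLog_norm fun z _ => (hF.analyticAt z).meromorphicAt
    · rw [mem_sphere_zero_iff_norm, abs_of_nonneg hr] at hz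
      exact hz
  simp only [characteristic, Pi.add_apply]
  linarith

theorem codiscrete_compl_countable {s : Set ℂ} (hs : s ∈ codiscrete ℂ) : sᶜ.Countable := by
  have h1 := (mem_codiscrete'.mp hs).2
  have h2 : DiscreteTopology ↥sᶜ := h1.to_subtype
  have h3 : Countable ↥sᶜ := TopologicalSpace.separableSpace_iff_countable.mp inferInstance
  exact h3

theorem eventually_rpow_bound {A c κ ν μ : ℝ} (hA : 0 ≤ A) (hc : 0 ≤ c) (hκ : 0 < κ) (hκν : κ ≤ ν)
    (hκ1 : κ ≤ 1) (hνμ : ν < μ) :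
    ∀ᶠ r : ℝ in atTop, r ^ ν + A * (1 + r) ^ κ + c ≤ r ^ μ := by
  filter_upwards [(tendsto_rpow_atTop (sub_pos.mpr hνμ)).eventually_ge_atTop (1 + 2 * A + c),
    eventually_ge_atTop 1] with r hr1 hr2
  have h0 : 0 < r := by linarith
  have h1 : (1 + r) ^ κ ≤ 2 * r ^ ν := by
    calc (1 + r) ^ κ ≤ (2 * r) ^ κ := Real.rpow_le_rpow (by positivity) (by linarith) hκ.le
      _ = 2 ^ κ * r ^ κ := Real.mul_rpow (by norm_num) h0.le
      _ ≤ 2 * r ^ ν := by
        have h2 : (2 : ℝ) ^ κ ≤ 2 := by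
          calc (2 : ℝ) ^ κ ≤ 2 ^ (1 : ℝ) := Real.rpow_le_rpow_of_exponent_le (by norm_num) hκ1
            _ = 2 := Real.rpow_one 2
        have h3 : r ^ κ ≤ r ^ ν := Real.rpow_le_rpow_of_exponent_le hr2 hκν
        have h4 : 0 ≤ r ^ κ := by positivity
        nlinarith
  have h5 : 1 ≤ r ^ ν := Real.one_le_rpow hr2 (by linarith)
  have h6 : r ^ μ = r ^ (μ - ν) * r ^ ν := by
    rw [← Real.rpow_add h0]; congr 1; ring
  have h7 : (1 + 2 * A + c) * r ^ ν ≤ r ^ μ := by
    rw [h6]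
    exact mul_le_mul_of_nonneg_right hr1 (by positivity)
  have h8 : A * (1 + r) ^ κ ≤ A * (2 * r ^ ν) := mul_le_mul_of_nonneg_left h1 hA
  nlinarith

open ValueDistribution in
/-- Reduction to an entire function. -/
theorem reduction (f : ℂ → ℂ) (hf : MeromorphicOn f Set.univ)
    (hk : ∃ k : ℝ, k < 1 / 2 ∧ ∃ C : ℝ, ∀ r : ℝ, 1 ≤ r →
        (∑ᶠ (z : ℂ) (_ : z ∈ Metric.ball (0 : ℂ) r),
          (((-(MeromorphicOn.divisor f Set.univ z)) ⊔ 0 : ℤ) : ℝ)) ≤ C * r ^ k)
    (hμ : ∃ μ : ℝ, 1 / 2 < μ ∧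
        ∀ᶠ r in Filter.atTop, r ^ μ ≤ ValueDistribution.characteristic f ⊤ r) :
    ∃ (F : ℂ → ℂ) (S : Set ℂ) (s C ν : ℝ), Differentiable ℂ F ∧ S.Countable ∧ 0 < s ∧ s < 1 / 2 ∧
      1 / 2 < ν ∧ (∀ z ∉ S, ‖F z‖ ≤ ‖f z‖ * Real.exp (C * (1 + ‖z‖) ^ s)) ∧
      (∀ᶠ r : ℝ in atTop, ∃ z : ℂ, ‖z‖ = r ∧ Real.exp (r ^ ν) ≤ ‖F z‖) := by
  obtain ⟨k, hk, C, hC⟩ := hk
  obtain ⟨μ, hμ, hchar⟩ := hμ
  obtain ⟨g, κ, A, hg, hκ0, hκ2, hA, ⟨z0, hz0⟩, hgb, hord⟩ := exists_canonical f hk hC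
  have hfm : Meromorphic f := meromorphicOn_univ.mp hf
  have hgm : Meromorphic g := fun z => (hg.analyticAt z).meromorphicAt
  have hgo : ∀ z, meromorphicOrderAt g z ≠ ⊤ := by
    intro z
    refine MeromorphicOn.meromorphicOrderAt_ne_top_of_isPreconnected (U := Set.univ) (x := z0)
      (meromorphicOn_univ.mpr hgm) isPreconnected_univ trivial trivial ?_
    rw [(hg.analyticAt z0).meromorphicOrderAt_eq,
      (hg.analyticAt z0).analyticOrderAt_eq_zero.mpr hz0]
    simp
  have hfo : ∀ z, meromorphicOrderAt f z ≠ ⊤ := by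
    by_contra! hcon
    obtain ⟨z1, hz1⟩ := hcon
    have h1 : ∀ z, meromorphicOrderAt f z = ⊤ := by
      intro z
      by_contra h2
      exact MeromorphicOn.meromorphicOrderAt_ne_top_of_isPreconnected (U := Set.univ) (x := z)
        hf isPreconnected_univ trivial trivial h2 hz1
    have h2 : f =ᶠ[codiscrete ℂ] fun _ => 0 := by
      rw [Filter.EventuallyEq, Filter.eventually_iff, mem_codiscrete]
      simp_rw [disjoint_principal_right]
      intro x
      filter_upwards [meromorphicOrderAt_eq_top_iff.mp (h1 x)] with y hy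
      simp [hy]
    obtain ⟨r, hr1, hr2⟩ := (hchar.and (eventually_ge_atTop 1)).exists
    rw [characteristic_congr_codiscrete h2 (by linarith)] at hr1
    have h3 : characteristic (fun _ : ℂ => (0 : ℂ)) ⊤ r = 0 := by
      simp only [characteristic, Pi.add_apply, proximity_const, logCounting_const]
      simp
    rw [h3] at hr1
    have : 0 < r ^ μ := Real.rpow_pos_of_pos (by linarith) _
    linarith
  have hfg : MeromorphicOn (f * g) Set.univ := fun z _ => (hfm z).mul (hgm z)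
  set F := toMeromorphicNFOn (f * g) Set.univ with hFdef
  have hFeq : f * g =ᶠ[codiscrete ℂ] F := toMeromorphicNFOn_eqOn_codiscrete hfg
  have hFan : ∀ z, AnalyticAt ℂ F z := by
    intro z
    have h1 : MeromorphicNFAt F z := meromorphicNFOn_toMeromorphicNFOn (f * g) Set.univ
      (Set.mem_univ z)
    rw [← h1.meromorphicOrderAt_nonneg_iff_analyticAt, hFdef,
      meromorphicOrderAt_toMeromorphicNFOn hfg (Set.mem_univ z),
      meromorphicOrderAt_mul (hfm z) (hgm z)]
    obtain ⟨n, hn⟩ := WithTop.ne_top_iff_exists.mp (hfo z)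
    have h2 : MeromorphicOn.divisor f Set.univ z = n := by
      rw [MeromorphicOn.divisor_apply hf (Set.mem_univ z), ← hn]
      rfl
    have h3 : -n ≤ (poles f z : ℤ) := by
      rw [poles, h2]
      rw [Int.toNat_of_nonneg (le_max_right _ _)]
      exact le_max_left _ _
    have h4 : (((poles f z : ℕ) : ℤ) : WithTop ℤ) ≤ meromorphicOrderAt g z := by
      rw [(hg.analyticAt z).meromorphicOrderAt_eq]
      have h5 := hord z
      cases hc : analyticOrderAt g z with
      | top => simp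
      | coe m =>
        rw [hc] at h5
        have h6 : poles f z ≤ m := by exact_mod_cast h5
        simp only [ENat.map_natCast]
        exact_mod_cast h6
    rw [← hn]
    calc (0 : WithTop ℤ) ≤ ((n + (poles f z : ℕ) : ℤ) : WithTop ℤ) := by
          have : (0 : ℤ) ≤ n + (poles f z : ℕ) := by omega
          exact_mod_cast this
      _ = (n : WithTop ℤ) + (((poles f z : ℕ) : ℤ) : WithTop ℤ) := by push_cast; rfl
      _ ≤ _ := by gcongr
  have hFd : Differentiable ℂ F := fun z => (hFan z).differentiableAt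
  have hFm : Meromorphic F := fun z => (hFan z).meromorphicAt
  have hg0 : ∀ᶠ z in codiscrete ℂ, g z ≠ 0 :=
    MeromorphicOn.eventually_codiscreteWithin_apply_ne_zero (U := Set.univ)
      (meromorphicOn_univ.mpr hgm) fun z _ => hgo z
  have hfF : f =ᶠ[codiscrete ℂ] F * g⁻¹ := by
    filter_upwards [hFeq, hg0] with z h1 h2
    simp only [Pi.mul_apply, Pi.inv_apply] at h1 ⊢
    rw [← h1]
    field_simp
  have hFo : ∀ z, meromorphicOrderAt F z ≠ ⊤ := by
    intro z
    rw [hFdef, meromorphicOrderAt_toMeromorphicNFOn hfg (Set.mem_univ z),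
      meromorphicOrderAt_mul (hfm z) (hgm z)]
    simp [hfo z, hgo z]
  have hgi : ∀ z, meromorphicOrderAt g⁻¹ z ≠ ⊤ := by
    intro z
    rw [meromorphicOrderAt_inv]
    obtain ⟨n, hn⟩ := WithTop.ne_top_iff_exists.mp (hgo z)
    rw [← hn]
    exact WithTop.coe_ne_top
  have hgim : Meromorphic g⁻¹ := fun z => (hgm z).inv
  set c : ℝ := |Real.log ‖meromorphicTrailingCoeffAt g 0‖| with hc
  obtain ⟨ν, hν1, hν2⟩ := exists_between hμ
  refine ⟨F, {z | (f * g) z = F z}ᶜ, κ, A, ν, hFd, codiscrete_compl_countable hFeq, hκ0, hκ2, hν1,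
    ?_, ?_⟩
  · intro z hz
    have h1 : (f * g) z = F z := not_not.mp hz
    rw [← h1, Pi.mul_apply, norm_mul]
    exact mul_le_mul_of_nonneg_left (hgb z) (norm_nonneg _)
  · filter_upwards [hchar, eventually_ge_atTop 1, eventually_rpow_bound hA (abs_nonneg _ : 0 ≤ c) hκ0
      (hκ2.le.trans hν1.le) (by linarith) hν2] with r hr1 hr2 hr3
    have hr0 : 0 < r := by linarith
    obtain ⟨z, hz, hzmax⟩ := (isCompact_sphere (0 : ℂ) r).exists_isMaxOn
      (NormedSpace.sphere_nonempty.mpr hr0.le) (hFd.continuous.norm.continuousOn)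
    have hzr : ‖z‖ = r := by simpa using hz
    refine ⟨z, hzr, ?_⟩
    have h1 : characteristic F ⊤ r ≤ Real.posLog ‖F z‖ := by
      refine characteristic_le_of_differentiable hFd hr0.le fun w hw => ?_
      exact Real.posLog_le_posLog (norm_nonneg _) (hzmax (by simpa using hw))
    have h2 : characteristic g ⊤ r ≤ A * (1 + r) ^ κ := by
      refine characteristic_le_of_differentiable hg hr0.le fun w hw => ?_
      have h3 := hgb w
      rw [hw] at h3
      calc Real.posLog ‖g w‖ ≤ Real.posLog (Real.exp (A * (1 + r) ^ κ)) :=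
            Real.posLog_le_posLog (norm_nonneg _) h3
        _ = A * (1 + r) ^ κ := by
            rw [Real.posLog, Real.log_exp]
            exact max_eq_right (by positivity)
    have h3 : characteristic g⁻¹ ⊤ r ≤ A * (1 + r) ^ κ + c := by
      have h4 := characteristic_sub_characteristic_inv_of_ne_zero hgm hr0.ne'
      have h5 := neg_abs_le (Real.log ‖meromorphicTrailingCoeffAt g 0‖)
      linarith
    have h4 : characteristic f ⊤ r ≤ characteristic F ⊤ r + characteristic g⁻¹ ⊤ r := by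
      rw [characteristic_congr_codiscrete hfF hr0.ne']
      exact characteristic_mul_top_le hr2 hFm hFo hgim hgi
    have h5 : r ^ ν ≤ Real.posLog ‖F z‖ := by linarith
    have h6 : 0 < r ^ ν := by positivity
    have h7 : Real.posLog ‖F z‖ = Real.log ‖F z‖ := by
      rw [Real.posLog] at h5 ⊢
      rcases max_choice 0 (Real.log ‖F z‖) with h | h
      · rw [h] at h5; linarith
      · exact h
    rw [h7] at h5
    have h8 : 0 < ‖F z‖ := by
      rcases (norm_nonneg (F z)).eq_or_lt with h | h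
      · rw [← h, Real.log_zero] at h5; linarith
      · exact h
    exact (Real.le_log_iff_exp_le h8).mp h5

end Pool.Agent.helper21.Path
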